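import Mathlib

/-! Connectivity inside vertex sets, walks as lists, and minor models. -/

namespace Pool.Agent.MP_250189_co

open Set

variable {V : Type*} {G G' : SimpleGraph V} {A B C W S : Set V} {a b c d : V}

def St (G : SimpleGraph V) (A : Set V) (a b : V) : Prop := G.Adj a b ∧ a ∈ A ∧ b ∈ A

def Reach (G : SimpleGraph V) (A : Set V) : V → V → Prop := Relation.ReflTransGen (St G A)

def Conn (G : SimpleGraph V) (A : Set V) : Prop := ∀ a ∈ A, ∀ b ∈ A, Reach G A a b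

def Cl (G : SimpleGraph V) (W C : Set V) : Prop := ∀ a ∈ W, ∀ b, G.Adj a b → b ∈ W ∨ b ∈ C

def Tch (G : SimpleGraph V) (A B : Set V) : Prop := ∃ a ∈ A, ∃ b ∈ B, G.Adj a b

def comp (G : SimpleGraph V) (A : Set V) (a : V) : Set V := {b | b ∈ A ∧ Reach G A a b}

lemma Reach.refl : Reach G A a a := Relation.ReflTransGen.refl

lemma Reach.single (h : G.Adj a b) (ha : a ∈ A) (hb : b ∈ A) : Reach G A a b :=
  Relation.ReflTransGen.single ⟨h, ha, hb⟩

lemma Reach.trans (h : Reach G A a b) (h' : Reach G A b c) : Reach G A a c :=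
  Relation.ReflTransGen.trans h h'

lemma Reach.tail (h : Reach G A a b) (h' : G.Adj b c) (hb : b ∈ A) (hc : c ∈ A) :
    Reach G A a c := h.trans (Reach.single h' hb hc)

lemma Reach.symm (h : Reach G A a b) : Reach G A b a := by
  induction h with
  | refl => exact Reach.refl
  | tail _ h2 ih => exact (Reach.single h2.1.symm h2.2.2 h2.2.1).trans ih

lemma Reach.mono' (h : Reach G A a b) (hAB : A ⊆ B)
    (hG : ∀ x ∈ A, ∀ y ∈ A, G.Adj x y → G'.Adj x y) : Reach G' B a b := by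
  induction h with
  | refl => exact Reach.refl
  | tail _ h2 ih => exact ih.tail (hG _ h2.2.1 _ h2.2.2 h2.1) (hAB h2.2.1) (hAB h2.2.2)

lemma Reach.mono (h : Reach G A a b) (hAB : A ⊆ B) : Reach G B a b :=
  h.mono' hAB fun _ _ _ _ h => h

lemma Reach.mem (h : Reach G A a b) (ha : a ∈ A) : b ∈ A := by
  induction h with
  | refl => exact ha
  | tail _ h2 _ => exact h2.2.2

lemma Reach.closed (h : Reach G A a b) (ha : a ∈ W)
    (hW : ∀ x ∈ W, x ∈ A → ∀ y ∈ A, G.Adj x y → y ∈ W) : b ∈ W := by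
  induction h with
  | refl => exact ha
  | tail _ h2 ih => exact hW _ ih h2.2.1 _ h2.2.2 h2.1

lemma Conn.closed (h : Conn G A) (ha : a ∈ W) (haA : a ∈ A)
    (hW : ∀ x ∈ W, x ∈ A → ∀ y ∈ A, G.Adj x y → y ∈ W) : A ⊆ W :=
  fun b hb => (h a haA b hb).closed ha hW

lemma Conn.mono' (h : Conn G A) (hG : ∀ x ∈ A, ∀ y ∈ A, G.Adj x y → G'.Adj x y) : Conn G' A :=
  fun a ha b hb => (h a ha b hb).mono' Subset.rfl hG

lemma Conn.mono (h : Conn G A) (hG : G ≤ G') : Conn G' A := h.mono' fun _ _ _ _ h => hG h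

lemma conn_of_base (c : V) (h : ∀ a ∈ A, Reach G A a c) : Conn G A :=
  fun a ha b hb => (h a ha).trans (h b hb).symm

lemma conn_empty : Conn G ∅ := fun _ h => h.elim

lemma conn_singleton : Conn G {a} := by
  rintro x rfl y rfl; exact Reach.refl

lemma Conn.union_of_mem (hA : Conn G A) (hB : Conn G B) (ha : c ∈ A) (hb : c ∈ B) :
    Conn G (A ∪ B) := by
  apply conn_of_base c
  rintro x (hx | hx)
  · exact (hA x hx c ha).mono subset_union_left
  · exact (hB x hx c hb).mono subset_union_right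

lemma Conn.union (hA : Conn G A) (hB : Conn G B) (h : Tch G A B) : Conn G (A ∪ B) := by
  obtain ⟨a, ha, b, hb, hab⟩ := h
  apply conn_of_base b
  rintro x (hx | hx)
  · exact ((hA x hx a ha).mono subset_union_left).tail hab (Or.inl ha) (Or.inr hb)
  · exact (hB x hx b hb).mono subset_union_right

lemma Tch.symm (h : Tch G A B) : Tch G B A := by
  obtain ⟨a, ha, b, hb, hab⟩ := h; exact ⟨b, hb, a, ha, hab.symm⟩

lemma Tch.mono {A' B' : Set V} (h : Tch G A B) (hG : G ≤ G') (hA : A ⊆ A') (hB : B ⊆ B') :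
    Tch G' A' B' := by
  obtain ⟨a, ha, b, hb, hab⟩ := h; exact ⟨a, hA ha, b, hB hb, hG hab⟩

lemma comp_subset : comp G A a ⊆ A := fun _ h => h.1

lemma mem_comp_self (ha : a ∈ A) : a ∈ comp G A a := ⟨ha, Reach.refl⟩

lemma comp_closed (hb : b ∈ comp G A a) (h : G.Adj b c) (hc : c ∈ A) : c ∈ comp G A a :=
  ⟨hc, hb.2.tail h hb.1 hc⟩

lemma conn_comp (ha : a ∈ A) : Conn G (comp G A a) := by
  apply conn_of_base a
  rintro x ⟨hx, hr⟩
  apply Reach.symm
  induction hr with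
  | refl => exact Reach.refl
  | tail h1 h2 ih => exact (ih h2.2.1).tail h2.1 ⟨h2.2.1, h1⟩ ⟨hx, Relation.ReflTransGen.tail h1 h2⟩

lemma comp_eq_of_mem (hb : b ∈ comp G A a) : comp G A b = comp G A a := by
  ext x
  exact ⟨fun hx => ⟨hx.1, hb.2.trans hx.2⟩, fun hx => ⟨hx.1, hb.2.symm.trans hx.2⟩⟩

lemma comp_disjoint (hb : b ∉ comp G A a) (hbA : b ∈ A) : Disjoint (comp G A a) (comp G A b) := by
  rw [Set.disjoint_left]
  intro x hx hx'
  exact hb ⟨hbA, hx.2.trans hx'.2.symm⟩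

lemma Conn.subset_comp (h : Conn G B) (hB : B ⊆ A) (ha : a ∈ B) : B ⊆ comp G A a :=
  fun x hx => ⟨hB hx, (h a ha x hx).mono hB⟩

lemma exists_not_mem_comp (h : ¬ Conn G A) (ha : a ∈ A) : ∃ b ∈ A, b ∉ comp G A a := by
  by_contra hcon
  push Not at hcon
  exact h (conn_of_base a fun x hx => (hcon x hx).2.symm)

/-- removing a part that hangs on a single vertex keeps a set connected -/
lemma Conn.remove_pendant {K : Set V} (h : Conn G A) (hc : c ∈ A) (hcK : c ∉ K)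
    (hK : ∀ x ∈ K, ∀ y ∈ A, G.Adj x y → y ∈ K ∨ y = c) : Conn G (A \ K) := by
  apply conn_of_base c
  rintro x ⟨hx, hxK⟩
  have key : ∀ y, Reach G A y c → y ∈ A → y ∉ K → Reach G (A \ K) y c := by
    intro y hy
    induction hy using Relation.ReflTransGen.head_induction_on with
    | refl => intro _ _; exact Reach.refl
    | @head p q h1 _ ih =>
      intro hp hpK
      by_cases hpc : p = c
      · rw [hpc]; exact Reach.refl
      · have hq : q ∉ K := fun hq => by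
          rcases hK q hq p hp h1.1.symm with h | h
          · exact hpK h
          · exact hpc h
        exact (Reach.single (A := A \ K) h1.1 ⟨hp, hpK⟩ ⟨h1.2.2, hq⟩).trans (ih h1.2.2 hq)
  exact key x (h x hx c hc) hx hxK

/-- use of the absence of cut vertices -/
lemma two_conn (h2 : ∀ c, Conn G (S \ {c})) (hcl : Cl G W {c}) (ha : a ∈ W) (haS : a ∈ S)
    (hac : a ≠ c) (hb : b ∈ S) (hbc : b ≠ c) : b ∈ W := by
  refine (h2 c).closed ha ⟨haS, hac⟩ (fun x hx _ y hy hxy => ?_) ⟨hb, hbc⟩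
  rcases hcl x hx y hxy with h | h
  · exact h
  · exact absurd h hy.2

lemma Cl.mono (h : Cl G W C) (hC : C ⊆ B) : Cl G W B := fun a ha b hab =>
  (h a ha b hab).imp id fun h => hC h

/-- a closed set that does not touch `c` -/
lemma Cl.erase (h : Cl G W {c, d}) (hc : ¬ Tch G W {c}) : Cl G W {d} := by
  intro x hx y hxy
  rcases h x hx y hxy with h | h | h
  · exact Or.inl h
  · exact absurd ⟨x, hx, y, h, hxy⟩ hc
  · exact Or.inr h

/-! ### Walks as lists -/

def Wk (G : SimpleGraph V) (a : V) (L : List V) (b : V) : Prop :=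
  L.IsChain G.Adj ∧ L.head? = some a ∧ L.getLast? = some b

def ls (L : List V) : Set V := {x | x ∈ L}

@[simp] lemma mem_ls {L : List V} : a ∈ ls L ↔ a ∈ L := Iff.rfl

lemma conn_ls {L : List V} (h : L.IsChain G.Adj) : Conn G (ls L) := by
  induction L with
  | nil => intro x hx; simp at hx
  | cons a L ih =>
    cases L with
    | nil =>
      have : ls [a] = {a} := by ext; simp
      rw [this]; exact conn_singleton
    | cons b T =>
      rw [List.isChain_cons_cons] at h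
      have : ls (a :: b :: T) = {a} ∪ ls (b :: T) := by ext; simp
      rw [this]
      exact conn_singleton.union (ih h.2) ⟨a, rfl, b, by simp, h.1⟩

lemma tch_of_chain {P Q : List V} (h : (P ++ Q).IsChain G.Adj) (hP : P ≠ []) (hQ : Q ≠ []) :
    Tch G (ls P) (ls Q) := by
  rw [List.isChain_append] at h
  exact ⟨P.getLast hP, List.getLast_mem hP, Q.head hQ, List.head_mem hQ,
    h.2.2 _ (by simp [List.getLast?_eq_getLast_of_ne_nil hP]) _ (by simp [List.head?_eq_some_head hQ])⟩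

lemma Reach.exists_wk (h : Reach G A a b) (ha : a ∈ A) :
    ∃ L, Wk G a L b ∧ ∀ x ∈ L, x ∈ A := by
  induction h using Relation.ReflTransGen.head_induction_on with
  | refl => exact ⟨[b], ⟨by simp, rfl, rfl⟩, by simpa using ha⟩
  | @head p q h1 _ ih =>
    obtain ⟨L, ⟨c1, c2, c3⟩, hL⟩ := ih h1.2.2
    cases L with
    | nil => simp at c2
    | cons q' T =>
      simp only [List.head?_cons, Option.some.injEq] at c2
      subst c2
      refine ⟨p :: q' :: T, ⟨List.isChain_cons_cons.2 ⟨h1.1, c1⟩, rfl, by simpa using c3⟩, ?_⟩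
      intro x hx
      rcases List.mem_cons.1 hx with rfl | hx
      · exact ha
      · exact hL x hx

lemma Wk.ne_nil {L : List V} (h : Wk G a L b) : L ≠ [] := by
  rintro rfl; simp [Wk] at h

lemma Wk.replace {P M N R : List V} (h : Wk G a (P ++ c :: M ++ d :: R) b)
    (hN : (c :: N ++ [d]).IsChain G.Adj) : Wk G a (P ++ c :: N ++ d :: R) b := by
  obtain ⟨h1, h2, h3⟩ := h
  refine ⟨?_, ?_, ?_⟩
  · have e1 : P ++ c :: M ++ d :: R = P ++ c :: (M ++ d :: R) := by simp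
    have e2 : P ++ c :: M ++ d :: R = (P ++ c :: M) ++ d :: R := by simp
    have f1 := (List.isChain_split.1 (e1 ▸ h1)).1
    have f2 := (List.isChain_split.1 (e2 ▸ h1)).2
    have e3 : P ++ c :: N ++ d :: R = P ++ c :: (N ++ d :: R) := by simp
    rw [e3, List.isChain_split]
    refine ⟨f1, ?_⟩
    have e4 : c :: (N ++ d :: R) = (c :: N) ++ d :: R := by simp
    rw [e4, List.isChain_split]
    exact ⟨hN, f2⟩
  · cases P <;> simpa using h2
  · simpa [List.getLast?_append, List.getLast?_cons] using h3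

lemma Wk.shortcut {P M R : List V} (h : Wk G a (P ++ c :: M ++ c :: R) b) :
    Wk G a (P ++ c :: R) b := by
  obtain ⟨h1, h2, h3⟩ := h
  refine ⟨?_, ?_, ?_⟩
  · have e1 : P ++ c :: M ++ c :: R = P ++ c :: (M ++ c :: R) := by simp
    have e2 : P ++ c :: M ++ c :: R = (P ++ c :: M) ++ c :: R := by simp
    have f1 := (List.isChain_split.1 (e1 ▸ h1)).1
    have f2 := (List.isChain_split.1 (e2 ▸ h1)).2
    rw [List.isChain_split]
    exact ⟨f1, f2⟩
  · cases P <;> simpa using h2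
  · simpa [List.getLast?_append, List.getLast?_cons] using h3

lemma not_nodup_split {L : List V} (h : ¬ L.Nodup) :
    ∃ P c M R, L = P ++ c :: M ++ c :: R := by
  induction L with
  | nil => simp at h
  | cons a T ih =>
    by_cases ha : a ∈ T
    · obtain ⟨M, R, rfl⟩ := List.append_of_mem ha
      exact ⟨[], a, M, R, by simp⟩
    · obtain ⟨P, c, M, R, rfl⟩ := ih (fun hT => h (List.nodup_cons.2 ⟨ha, hT⟩))
      exact ⟨a :: P, c, M, R, by simp⟩

lemma Reach.exists_path (h : Reach G A a b) (ha : a ∈ A) :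
    ∃ L, Wk G a L b ∧ L.Nodup ∧ ∀ x ∈ L, x ∈ A := by
  classical
  have hex : ∃ n, ∃ L, Wk G a L b ∧ (∀ x ∈ L, x ∈ A) ∧ L.length = n := by
    obtain ⟨L, h1, h2⟩ := h.exists_wk ha
    exact ⟨_, L, h1, h2, rfl⟩
  obtain ⟨L, h1, h2, h3⟩ := Nat.find_spec hex
  refine ⟨L, h1, ?_, h2⟩
  by_contra hnd
  obtain ⟨P, c, M, R, rfl⟩ := not_nodup_split hnd
  have := Nat.find_min' hex ⟨P ++ c :: R, h1.shortcut, fun x hx => h2 x (by
    simp only [List.mem_append, List.mem_cons] at hx ⊢; tauto), rfl⟩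
  rw [← h3] at this
  simp at this
  omega

lemma pair_split {L : List V} (ha : a ∈ L) (hb : b ∈ L) (hab : a ≠ b) :
    (∃ P M R, L = P ++ a :: M ++ b :: R) ∨ ∃ P M R, L = P ++ b :: M ++ a :: R := by
  obtain ⟨P, R, rfl⟩ := List.append_of_mem ha
  rcases List.mem_append.1 hb with h | h
  · obtain ⟨P1, P2, rfl⟩ := List.append_of_mem h
    exact Or.inr ⟨P1, P2, R, by simp⟩
  · rcases List.mem_cons.1 h with h | h
    · exact absurd h.symm hab
    · obtain ⟨R1, R2, rfl⟩ := List.append_of_mem h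
      exact Or.inl ⟨P, R1, R2, by simp⟩

lemma split_first (p : V → Prop) {L : List V} (h : ∃ x ∈ L, p x) :
    ∃ P c R, L = P ++ c :: R ∧ p c ∧ ∀ x ∈ P, ¬ p x := by
  induction L with
  | nil => simp at h
  | cons a T ih =>
    by_cases ha : p a
    · exact ⟨[], a, T, rfl, ha, by simp⟩
    · obtain ⟨x, hx, hp⟩ := h
      rcases List.mem_cons.1 hx with rfl | hx
      · exact absurd hp ha
      · obtain ⟨P, c, R, rfl, h1, h2⟩ := ih ⟨x, hx, hp⟩
        refine ⟨a :: P, c, R, rfl, h1, ?_⟩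
        intro y hy
        rcases List.mem_cons.1 hy with rfl | hy
        · exact ha
        · exact h2 y hy

lemma split_last (p : V → Prop) {L : List V} (h : ∃ x ∈ L, p x) :
    ∃ P c R, L = P ++ c :: R ∧ p c ∧ ∀ x ∈ R, ¬ p x := by
  obtain ⟨P, c, R, h1, h2, h3⟩ := split_first p (L := L.reverse) (by simpa using h)
  refine ⟨R.reverse, c, P.reverse, ?_, h2, by simpa using h3⟩
  have := congrArg List.reverse h1
  simpa using this

/-- the list is an induced path -/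
def Ind (G : SimpleGraph V) (L : List V) : Prop :=
  ∀ P c M d R, L = P ++ c :: M ++ d :: R → G.Adj c d → M = []

/-! ### Minor models -/

structure Model (G : SimpleGraph V) {ι : Type} (H : ι → ι → Prop) (B : ι → Set V) : Prop where
  conn : ∀ i, Conn G (B i)
  disj : ∀ i j, i ≠ j → Disjoint (B i) (B j)
  tch : ∀ i j, H i j → Tch G (B i) (B j)

/-- no `K_{3,3}` minor and no `K_5` minor -/
def NoK (G : SimpleGraph V) : Prop :=
  (∀ B : Fin 6 → Set V, ¬ Model G (fun i j => i.val < 3 ∧ 3 ≤ j.val) B) ∧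
    ∀ B : Fin 5 → Set V, ¬ Model G (fun i j => i ≠ j) B

lemma Model.merge {ι : Type} {H : ι → ι → Prop} {B : ι → Set V} (hm : Model G' H B)
    (hH : ∀ i, ∃ j, H i j ∨ H j i) (hC : Conn G C) (hc : c ∈ C)
    (hadj : ∀ a b, G'.Adj a b → (a ∈ C → a = c) ∧
      (G.Adj a b ∨ (a = c ∧ ∃ d ∈ C, G.Adj d b) ∨ (b = c ∧ ∃ d ∈ C, G.Adj a d))) :
    Model G H (fun i => B i ∪ {x | c ∈ B i ∧ x ∈ C}) := by
  have hBC : ∀ i, ∀ x ∈ B i, x ∈ C → x = c := by
    intro i x hx hxC
    have hnb : ∃ a ∈ B i, ∃ b, G'.Adj a b := by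
      obtain ⟨j, h | h⟩ := hH i
      · obtain ⟨a, ha, b, -, hab⟩ := hm.tch i j h; exact ⟨a, ha, b, hab⟩
      · obtain ⟨a, -, b, hb, hab⟩ := hm.tch j i h; exact ⟨b, hb, a, hab.symm⟩
    obtain ⟨a, ha, b, hab⟩ := hnb
    have hr := hm.conn i x hx a ha
    rcases Relation.ReflTransGen.cases_head hr with h | ⟨y, hy, -⟩
    · subst h; exact (hadj _ _ hab).1 hxC
    · exact (hadj _ _ hy.1).1 hxC
  have hstep : ∀ i, ∀ a ∈ B i, ∀ b ∈ B i, G'.Adj a b →
      Reach G (B i ∪ {x | c ∈ B i ∧ x ∈ C}) a b := by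
    intro i a ha b hb hab
    rcases (hadj a b hab).2 with h | ⟨rfl, d, hd, h⟩ | ⟨rfl, d, hd, h⟩
    · exact Reach.single h (Or.inl ha) (Or.inl hb)
    · exact ((hC a hc d hd).mono fun x hx => Or.inr ⟨ha, hx⟩).tail h (Or.inr ⟨ha, hd⟩) (Or.inl hb)
    · exact (Reach.single h (Or.inl ha) (Or.inr ⟨hb, hd⟩)).trans
        ((hC d hd b hc).mono fun x hx => Or.inr ⟨hb, hx⟩)
  have hreach : ∀ i, ∀ a ∈ B i, ∀ b ∈ B i, Reach G (B i ∪ {x | c ∈ B i ∧ x ∈ C}) a b := by
    intro i a ha b hb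
    have := hm.conn i a ha b hb
    clear hb
    induction this with
    | refl => exact Reach.refl
    | tail _ h2 ih => exact ih.trans (hstep i _ h2.2.1 _ h2.2.2 h2.1)
  refine ⟨fun i => ?_, fun i j hij => ?_, fun i j hij => ?_⟩
  · have hto : ∀ x ∈ B i ∪ {x | c ∈ B i ∧ x ∈ C}, ∃ y ∈ B i,
        Reach G (B i ∪ {x | c ∈ B i ∧ x ∈ C}) x y := by
      rintro x (hx | hx)
      · exact ⟨x, hx, Reach.refl⟩
      · exact ⟨c, hx.1, (hC x hx.2 c hc).mono fun y hy => Or.inr ⟨hx.1, hy⟩⟩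
    intro x hx y hy
    obtain ⟨x', hx', r1⟩ := hto x hx
    obtain ⟨y', hy', r2⟩ := hto y hy
    exact (r1.trans (hreach i x' hx' y' hy')).trans r2.symm
  · have hd := Set.disjoint_left.1 (hm.disj i j hij)
    rw [Set.disjoint_left]
    rintro x (hx | hx) (hy | hy)
    · exact hd hx hy
    · exact hd (hBC i x hx hy.2 ▸ hx) hy.1
    · exact hd hx.1 (hBC j x hy hx.2 ▸ hy)
    · exact hd hx.1 hy.1
  · obtain ⟨a, ha, b, hb, hab⟩ := hm.tch i j hij
    rcases (hadj a b hab).2 with h | ⟨rfl, d, hd, h⟩ | ⟨rfl, d, hd, h⟩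
    · exact ⟨a, Or.inl ha, b, Or.inl hb, h⟩
    · exact ⟨d, Or.inr ⟨ha, hd⟩, b, Or.inl hb, h⟩
    · exact ⟨a, Or.inl ha, d, Or.inr ⟨hb, hd⟩, h⟩

/-- contracting the connected set `C` to `c` and deleting keeps a graph free of the two minors -/
lemma NoK.merge (h : NoK G) (hC : Conn G C) (hc : c ∈ C)
    (hadj : ∀ a b, G'.Adj a b → (a ∈ C → a = c) ∧
      (G.Adj a b ∨ (a = c ∧ ∃ d ∈ C, G.Adj d b) ∨ (b = c ∧ ∃ d ∈ C, G.Adj a d))) : NoK G' := by
  refine ⟨fun B hm => h.1 _ (hm.merge (fun i => ?_) hC hc hadj),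
    fun B hm => h.2 _ (hm.merge (fun i => ?_) hC hc hadj)⟩
  · revert i; decide
  · revert i; decide

lemma NoK.mono (h : NoK G) (hG : G' ≤ G) : NoK G' :=
  ⟨fun B hm => h.1 B ⟨fun i => (hm.conn i).mono hG, hm.disj,
      fun i j hij => (hm.tch i j hij).mono hG Subset.rfl Subset.rfl⟩,
   fun B hm => h.2 B ⟨fun i => (hm.conn i).mono hG, hm.disj,
      fun i j hij => (hm.tch i j hij).mono hG Subset.rfl Subset.rfl⟩⟩

/-! ### Graph operations -/

def res (G : SimpleGraph V) (S : Set V) : SimpleGraph V where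
  Adj a b := G.Adj a b ∧ a ∈ S ∧ b ∈ S
  symm := ⟨fun _ _ h => ⟨h.1.symm, h.2.2, h.2.1⟩⟩
  loopless := ⟨fun _ h => G.irrefl h.1⟩

def aug (G : SimpleGraph V) (X : Set V) (z : V) : SimpleGraph V where
  Adj a b := G.Adj a b ∨ (a ≠ b ∧ ((a = z ∧ b ∈ X) ∨ (b = z ∧ a ∈ X)))
  symm := ⟨fun _ _ h => h.imp (fun h => h.symm) fun h => ⟨h.1.symm, h.2.symm⟩⟩
  loopless := ⟨fun _ h => h.elim G.irrefl fun h => h.1 rfl⟩

def addE (G : SimpleGraph V) (u v : V) : SimpleGraph V where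
  Adj a b := G.Adj a b ∨ (a ≠ b ∧ ((a = u ∧ b = v) ∨ (b = u ∧ a = v)))
  symm := ⟨fun _ _ h => h.imp (fun h => h.symm) fun h => ⟨h.1.symm, h.2.symm⟩⟩
  loopless := ⟨fun _ h => h.elim G.irrefl fun h => h.1 rfl⟩

def delE (G : SimpleGraph V) (u v : V) : SimpleGraph V where
  Adj a b := G.Adj a b ∧ ¬ ((a = u ∧ b = v) ∨ (b = u ∧ a = v))
  symm := ⟨fun _ _ h => ⟨h.1.symm, fun h' => h.2 h'.symm⟩⟩
  loopless := ⟨fun _ h => G.irrefl h.1⟩

lemma le_aug {X : Set V} {z : V} : G ≤ aug G X z := fun _ _ h => Or.inl h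
lemma le_addE {u v : V} : G ≤ addE G u v := fun _ _ h => Or.inl h

lemma k33z {X : Set V} {z : V} (h : NoK (aug G X z)) (hz : z ∉ S) {A1 A2 B1 B2 B3 : Set V}
    (s1 : A1 ⊆ S) (s2 : A2 ⊆ S) (s3 : B1 ⊆ S) (s4 : B2 ⊆ S) (s5 : B3 ⊆ S)
    (c1 : Conn G A1) (c2 : Conn G A2) (c3 : Conn G B1) (c4 : Conn G B2) (c5 : Conn G B3)
    (d12 : Disjoint A1 A2) (d13 : Disjoint A1 B1) (d14 : Disjoint A1 B2) (d15 : Disjoint A1 B3)
    (d23 : Disjoint A2 B1) (d24 : Disjoint A2 B2) (d25 : Disjoint A2 B3)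
    (d34 : Disjoint B1 B2) (d35 : Disjoint B1 B3) (d45 : Disjoint B2 B3)
    (t11 : Tch G A1 B1) (t12 : Tch G A1 B2) (t13 : Tch G A1 B3)
    (t21 : Tch G A2 B1) (t22 : Tch G A2 B2) (t23 : Tch G A2 B3)
    (x1 : ∃ x ∈ B1, x ∈ X) (x2 : ∃ x ∈ B2, x ∈ X) (x3 : ∃ x ∈ B3, x ∈ X) : False := by
  have dz : ∀ T : Set V, T ⊆ S → Disjoint T {z} := fun T hT =>
    Set.disjoint_singleton_right.2 fun h => hz (hT h)
  have tz : ∀ T : Set V, T ⊆ S → (∃ x ∈ T, x ∈ X) → Tch (aug G X z) {z} T := by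
    rintro T hT ⟨x, hx, hxX⟩
    exact ⟨z, rfl, x, hx, Or.inr ⟨fun h => hz (h ▸ hT hx), Or.inl ⟨rfl, hxX⟩⟩⟩
  have m : ∀ {T T' : Set V}, Tch G T T' → Tch (aug G X z) T T' := fun h =>
    h.mono le_aug Subset.rfl Subset.rfl
  refine h.1 ![A1, A2, {z}, B1, B2, B3] ⟨fun i => ?_, fun i j hij => ?_, fun i j hij => ?_⟩
  · fin_cases i
    exacts [c1.mono le_aug, c2.mono le_aug, conn_singleton, c3.mono le_aug, c4.mono le_aug,
      c5.mono le_aug]
  · fin_cases i <;> fin_cases j <;> first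
      | exact absurd rfl hij
      | assumption
      | (apply Disjoint.symm; assumption)
      | (apply dz; assumption)
      | (apply Disjoint.symm; apply dz; assumption)
  · fin_cases i <;> fin_cases j <;> first
      | (exfalso; revert hij; decide)
      | (apply m; assumption)
      | (apply tz <;> assumption)

lemma k5z {X : Set V} {z : V} (h : NoK (aug G X z)) (hz : z ∉ S) {B1 B2 B3 B4 : Set V}
    (s1 : B1 ⊆ S) (s2 : B2 ⊆ S) (s3 : B3 ⊆ S) (s4 : B4 ⊆ S)
    (c1 : Conn G B1) (c2 : Conn G B2) (c3 : Conn G B3) (c4 : Conn G B4)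
    (d12 : Disjoint B1 B2) (d13 : Disjoint B1 B3) (d14 : Disjoint B1 B4)
    (d23 : Disjoint B2 B3) (d24 : Disjoint B2 B4) (d34 : Disjoint B3 B4)
    (t12 : Tch G B1 B2) (t13 : Tch G B1 B3) (t14 : Tch G B1 B4)
    (t23 : Tch G B2 B3) (t24 : Tch G B2 B4) (t34 : Tch G B3 B4)
    (x1 : ∃ x ∈ B1, x ∈ X) (x2 : ∃ x ∈ B2, x ∈ X) (x3 : ∃ x ∈ B3, x ∈ X)
    (x4 : ∃ x ∈ B4, x ∈ X) : False := by
  have dz : ∀ T : Set V, T ⊆ S → Disjoint T {z} := fun T hT =>
    Set.disjoint_singleton_right.2 fun h => hz (hT h)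
  have tz : ∀ T : Set V, T ⊆ S → (∃ x ∈ T, x ∈ X) → Tch (aug G X z) {z} T := by
    rintro T hT ⟨x, hx, hxX⟩
    exact ⟨z, rfl, x, hx, Or.inr ⟨fun h => hz (h ▸ hT hx), Or.inl ⟨rfl, hxX⟩⟩⟩
  have m : ∀ {T T' : Set V}, Tch G T T' → Tch (aug G X z) T T' := fun h =>
    h.mono le_aug Subset.rfl Subset.rfl
  refine h.2 ![{z}, B1, B2, B3, B4] ⟨fun i => ?_, fun i j hij => ?_, fun i j hij => ?_⟩
  · fin_cases i
    exacts [conn_singleton, c1.mono le_aug, c2.mono le_aug, c3.mono le_aug, c4.mono le_aug]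
  · fin_cases i <;> fin_cases j <;> first
      | exact absurd rfl hij
      | assumption
      | (apply Disjoint.symm; assumption)
      | (apply dz; assumption)
      | (apply Disjoint.symm; apply dz; assumption)
  · fin_cases i <;> fin_cases j <;> first
      | exact absurd rfl hij
      | (apply m; assumption)
      | (apply Tch.symm; apply m; assumption)
      | (apply tz <;> assumption)
      | (apply Tch.symm; apply tz <;> assumption)

end Pool.Agent.MP_250189_co
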