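import Mathlib

/-! Monotone paths, slopes and shellings by convex faces. -/

namespace Pool.Agent.MP_250189_co

open Set Filter Topology

variable {V : Type*} {x y y' : V → ℝ} {a b c v : V}

noncomputable def sl (x y : V → ℝ) (a b : V) : ℝ := (y b - y a) / (x b - x a)

noncomputable def ln (x y : V → ℝ) (a b : V) (t : ℝ) : ℝ := y a + sl x y a b * (t - x a)

def edges : List V → Set (V × V)
  | a :: b :: T => insert (a, b) (edges (b :: T))
  | _ => ∅

def Tri (R : V → V → V → Prop) : List V → Prop
  | a :: b :: c :: T => R a b c ∧ Tri R (b :: c :: T)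
  | _ => True

noncomputable def fs (x y : V → ℝ) : List V → ℝ
  | a :: b :: _ => sl x y a b
  | _ => 0

def Inc (x : V → ℝ) (L : List V) : Prop := ∀ e ∈ edges L, x e.1 < x e.2

def Cvx (x y : V → ℝ) (L : List V) : Prop := Tri (fun a b c => sl x y a b ≤ sl x y b c) L

def Ccv (x y : V → ℝ) (L : List V) : Prop := Tri (fun a b c => sl x y b c ≤ sl x y a b) L

structure Face (x y : V → ℝ) (a : V) (M Q : List V) (b : V) : Prop where
  incM : Inc x (a :: (M ++ [b]))
  incQ : Inc x (a :: (Q ++ [b]))
  cvx : Cvx x y (a :: (M ++ [b]))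
  ccv : Ccv x y (a :: (Q ++ [b]))
  lt : fs x y (a :: (M ++ [b])) < fs x y (a :: (Q ++ [b]))

inductive Shell (x y : V → ℝ) : List V → Set (V × V) → List V → Prop
  | refl (P : List V) : Shell x y P ∅ P
  | step (A B : List V) (a b : V) (M Q : List V) (E : Set (V × V)) (P' : List V) :
      Face x y a M Q b → Shell x y (A ++ a :: (Q ++ b :: B)) E P' →
      Shell x y (A ++ a :: (M ++ b :: B)) (E ∪ edges (a :: (Q ++ [b]))) P'

@[simp] lemma edges_nil : edges ([] : List V) = ∅ := rfl
@[simp] lemma edges_single : edges [a] = ∅ := rfl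
@[simp] lemma edges_cons2 {T : List V} : edges (a :: b :: T) = insert (a, b) (edges (b :: T)) := rfl
@[simp] lemma tri_nil {R : V → V → V → Prop} : Tri R [] := trivial
@[simp] lemma tri_one {R : V → V → V → Prop} : Tri R [a] := trivial
@[simp] lemma tri_two {R : V → V → V → Prop} : Tri R [a, b] := trivial
@[simp] lemma tri_cons3 {R : V → V → V → Prop} {T : List V} :
    Tri R (a :: b :: c :: T) ↔ R a b c ∧ Tri R (b :: c :: T) := Iff.rfl
@[simp] lemma fs_cons2 {T : List V} : fs x y (a :: b :: T) = sl x y a b := rfl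

lemma edges_split (P R : List V) (c : V) :
    edges (P ++ c :: R) = edges (P ++ [c]) ∪ edges (c :: R) := by
  induction P with
  | nil => simp
  | cons p P ih =>
    cases P with
    | nil => simp
    | cons q P =>
      simp only [List.cons_append, edges_cons2] at ih ⊢
      rw [ih, insert_union]

lemma edges_finite (L : List V) : (edges L).Finite := by
  induction L with
  | nil => simp
  | cons p P ih =>
    cases P with
    | nil => simp
    | cons q P => exact ih.insert _

lemma edges_iff {L : List V} {e : V × V} : e ∈ edges L ↔ ∃ P R, L = P ++ e.1 :: e.2 :: R := by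
  constructor
  · induction L with
    | nil => simp
    | cons p P ih =>
      cases P with
      | nil => simp
      | cons q P =>
        rintro (rfl | h)
        · exact ⟨[], P, rfl⟩
        · obtain ⟨P1, R, h⟩ := ih h
          exact ⟨p :: P1, R, by rw [h]; rfl⟩
  · rintro ⟨P, R, rfl⟩
    rw [edges_split]; right; simp

lemma mem_of_edge {L : List V} {e : V × V} (h : e ∈ edges L) : e.1 ∈ L ∧ e.2 ∈ L := by
  obtain ⟨P, R, rfl⟩ := edges_iff.1 h; simp

lemma edges_sub_append_left (P R : List V) : edges P ⊆ edges (P ++ R) := by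
  intro e he
  obtain ⟨P1, R1, rfl⟩ := edges_iff.1 he
  exact edges_iff.2 ⟨P1, R1 ++ R, by simp⟩

lemma edges_sub_append_right (P R : List V) : edges R ⊆ edges (P ++ R) := by
  intro e he
  obtain ⟨P1, R1, rfl⟩ := edges_iff.1 he
  exact edges_iff.2 ⟨P ++ P1, R1, by simp⟩

lemma exists_edge_out {P : List V} (h : c ∈ P) (b : V) : ∃ d, (c, d) ∈ edges (P ++ [b]) := by
  obtain ⟨P1, P2, rfl⟩ := List.append_of_mem h
  cases P2 with
  | nil => exact ⟨b, edges_iff.2 ⟨P1, [], by simp⟩⟩
  | cons d P2 => exact ⟨d, edges_iff.2 ⟨P1, P2 ++ [b], by simp⟩⟩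

lemma last_edge {P : List V} (h : P.getLast? = some a) : (a, c) ∈ edges (P ++ [c]) := by
  obtain ⟨P', rfl⟩ := List.getLast?_eq_some_iff.1 h
  exact edges_iff.2 ⟨P', [], by simp⟩

lemma isChain_iff_edges {R : V → V → Prop} {L : List V} :
    L.IsChain R ↔ ∀ e ∈ edges L, R e.1 e.2 := by
  induction L with
  | nil => simp
  | cons p P ih =>
    cases P with
    | nil => simp
    | cons q P => simp [ih]

lemma Inc.pairwise {L : List V} (h : Inc x L) : L.Pairwise (fun a b => x a < x b) := by
  have hch : L.IsChain (fun a b => x a < x b) := isChain_iff_edges.2 h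
  have : Trans (fun a b => x a < x b) (fun a b => x a < x b) (fun a b => x a < x b) :=
    ⟨fun h1 h2 => h1.trans h2⟩
  exact List.isChain_iff_pairwise.1 hch

lemma Inc.nodup {L : List V} (h : Inc x L) : L.Nodup :=
  h.pairwise.imp fun h heq => by rw [heq] at h; exact lt_irrefl _ h

lemma Inc.left {P R : List V} (h : Inc x (P ++ R)) : Inc x P :=
  fun e he => h e (edges_sub_append_left P R he)

lemma Inc.right {P R : List V} (h : Inc x (P ++ R)) : Inc x R :=
  fun e he => h e (edges_sub_append_right P R he)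

lemma Inc.lt {P R : List V} (h : Inc x (P ++ R)) (ha : a ∈ P) (hb : b ∈ R) : x a < x b :=
  (List.pairwise_append.1 h.pairwise).2.2 a ha b hb

lemma inc_split {P R : List V} : Inc x (P ++ c :: R) ↔ Inc x (P ++ [c]) ∧ Inc x (c :: R) := by
  unfold Inc; rw [edges_split]
  exact ⟨fun h => ⟨fun e he => h e (Or.inl he), fun e he => h e (Or.inr he)⟩,
    fun h e he => he.elim (h.1 e) (h.2 e)⟩

lemma Tri.imp {R R' : V → V → V → Prop} {L : List V} (h : Tri R L)
    (hR : ∀ a b c, (a, b) ∈ edges L → (b, c) ∈ edges L → R a b c → R' a b c) : Tri R' L := by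
  induction L with
  | nil => simp
  | cons p P ih =>
    cases P with
    | nil => simp
    | cons q P =>
      cases P with
      | nil => simp
      | cons r P =>
        exact ⟨hR p q r (by simp) (by simp) h.1,
          ih h.2 fun a b c h1 h2 => hR a b c (Or.inr h1) (Or.inr h2)⟩

lemma tri_split {R : V → V → V → Prop} {P T : List V} : Tri R (P ++ c :: T) ↔
    Tri R (P ++ [c]) ∧ Tri R (c :: T) ∧
      ∀ a b, P.getLast? = some a → T.head? = some b → R a c b := by
  induction P with
  | nil => simp
  | cons p P ih =>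
    cases P with
    | nil =>
      cases T with
      | nil => simp
      | cons t T => simp [and_comm]
    | cons q P =>
      cases P with
      | nil =>
        simp only [List.cons_append, List.nil_append, tri_cons3] at ih ⊢
        rw [ih]; simp [and_assoc]
      | cons r P =>
        simp only [List.cons_append, tri_cons3] at ih ⊢
        rw [ih]; simp [and_assoc]

lemma tri_of_forall {R : V → V → V → Prop} {L : List V}
    (hR : ∀ a b c, (a, b) ∈ edges L → (b, c) ∈ edges L → R a b c) : Tri R L := by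
  have : Tri (fun _ _ _ => True) L := by
    induction L with
    | nil => simp
    | cons p P ih =>
      cases P with
      | nil => simp
      | cons q P =>
        cases P with
        | nil => simp
        | cons r P => exact ⟨trivial, ih fun a b c h1 h2 => hR a b c (Or.inr h1) (Or.inr h2)⟩
  exact this.imp fun a b c h1 h2 _ => hR a b c h1 h2

lemma fs_append (M R : List V) : fs x y (a :: (M ++ c :: R)) = fs x y (a :: (M ++ [c])) := by
  cases M <;> simp

lemma fs_edge (M : List V) : ∃ d, (a, d) ∈ edges (a :: (M ++ [c])) ∧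
    (M ++ [c]).head? = some d ∧ ∀ y, fs x y (a :: (M ++ [c])) = sl x y a d := by
  cases M with
  | nil => exact ⟨c, by simp, rfl, fun _ => rfl⟩
  | cons d M => exact ⟨d, by simp, rfl, fun _ => rfl⟩

lemma fs_head {T : List V} (h : T.head? = some b) : fs x y (a :: T) = sl x y a b := by
  cases T with
  | nil => simp at h
  | cons t T => simp at h; simp [h]

/-! ### affine changes of the heights -/

def Aff (S : Set V) (x y y' : V → ℝ) (κ l m : ℝ) : Prop := ∀ a ∈ S, y' a = κ * y a + l * x a + m

variable {S : Set V} {κ l m : ℝ}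

lemma Aff.sl (h : Aff S x y y' κ l m) (ha : a ∈ S) (hb : b ∈ S) (hx : x a < x b) :
    sl x y' a b = κ * sl x y a b + l := by
  have : x b - x a ≠ 0 := by linarith
  unfold Pool.Agent.MP_250189_co.sl
  rw [h a ha, h b hb]; field_simp; ring

lemma Aff.ln (h : Aff S x y y' κ l m) (ha : a ∈ S) (hb : b ∈ S) (hx : x a < x b) (t : ℝ) :
    ln x y' a b t = κ * ln x y a b t + l * t + m := by
  unfold Pool.Agent.MP_250189_co.ln
  rw [h.sl ha hb hx, h a ha]; ring

lemma Aff.fs (h : Aff S x y y' κ l m) {M : List V} (hS : ∀ w ∈ a :: (M ++ [b]), w ∈ S)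
    (hx : Inc x (a :: (M ++ [b]))) :
    fs x y' (a :: (M ++ [b])) = κ * fs x y (a :: (M ++ [b])) + l := by
  obtain ⟨d, h1, -, h2⟩ := fs_edge (x := x) (a := a) (c := b) M
  rw [h2, h2]
  exact h.sl (hS _ (mem_of_edge h1).1) (hS _ (mem_of_edge h1).2) (hx _ h1)

lemma Aff.tri_le (h : Aff S x y y' κ l m) (hκ : 0 < κ) {L : List V} (hS : ∀ w ∈ L, w ∈ S)
    (hx : Inc x L) {p p' : V → Prop} (hp : ∀ a b c, (a, b) ∈ edges L → (b, c) ∈ edges L → p' b → p b)
    (ht : Tri (fun a b c => p b → Pool.Agent.MP_250189_co.sl x y a b ≤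
      Pool.Agent.MP_250189_co.sl x y b c) L) :
    Tri (fun a b c => p' b → Pool.Agent.MP_250189_co.sl x y' a b ≤
      Pool.Agent.MP_250189_co.sl x y' b c) L := by
  refine ht.imp fun a b c h1 h2 h3 h4 => ?_
  rw [h.sl (hS _ (mem_of_edge h1).1) (hS _ (mem_of_edge h1).2) (hx _ h1),
    h.sl (hS _ (mem_of_edge h2).1) (hS _ (mem_of_edge h2).2) (hx _ h2)]
  have := h3 (hp a b c h1 h2 h4)
  nlinarith

lemma Aff.cvx (h : Aff S x y y' κ l m) (hκ : 0 < κ) {L : List V} (hS : ∀ w ∈ L, w ∈ S)
    (hx : Inc x L) (ht : Cvx x y L) : Cvx x y' L := by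
  refine Tri.imp ht fun a b c h1 h2 h3 => ?_
  rw [h.sl (hS _ (mem_of_edge h1).1) (hS _ (mem_of_edge h1).2) (hx _ h1),
    h.sl (hS _ (mem_of_edge h2).1) (hS _ (mem_of_edge h2).2) (hx _ h2)]
  nlinarith

lemma Aff.ccv (h : Aff S x y y' κ l m) (hκ : 0 < κ) {L : List V} (hS : ∀ w ∈ L, w ∈ S)
    (hx : Inc x L) (ht : Ccv x y L) : Ccv x y' L := by
  refine Tri.imp ht fun a b c h1 h2 h3 => ?_
  rw [h.sl (hS _ (mem_of_edge h1).1) (hS _ (mem_of_edge h1).2) (hx _ h1),
    h.sl (hS _ (mem_of_edge h2).1) (hS _ (mem_of_edge h2).2) (hx _ h2)]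
  nlinarith

lemma Shell.aff (h : Aff S x y y' κ l m) (hκ : 0 < κ) {P P' : List V} {E : Set (V × V)}
    (hs : Shell x y P E P') (hP : ∀ w ∈ P, w ∈ S) (hE : ∀ e ∈ E, e.1 ∈ S ∧ e.2 ∈ S) :
    Shell x y' P E P' := by
  induction hs with
  | refl P => exact Shell.refl P
  | step A B a b M Q E P' hf _ ih =>
    have hQ : ∀ w ∈ Q, w ∈ S := by
      intro w hw
      obtain ⟨d, hd⟩ := exists_edge_out (P := a :: Q) (List.mem_cons_of_mem _ hw) b
      exact (hE _ (Or.inr hd)).1
    have h1 : ∀ w ∈ a :: (M ++ [b]), w ∈ S := fun w hw => hP w (by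
      simp only [List.mem_append, List.mem_cons, List.not_mem_nil] at hw ⊢; tauto)
    have h2 : ∀ w ∈ a :: (Q ++ [b]), w ∈ S := by
      intro w hw
      simp only [List.mem_append, List.mem_cons, List.not_mem_nil, or_false] at hw
      rcases hw with rfl | hw | rfl
      · exact hP _ (by simp)
      · exact hQ w hw
      · exact hP _ (by simp)
    refine Shell.step A B a b M Q E P' ⟨hf.incM, hf.incQ, h.cvx hκ h1 hf.incM hf.cvx,
      h.ccv hκ h2 hf.incQ hf.ccv, ?_⟩ (ih ?_ fun e he => hE e (Or.inl he))
    · rw [h.fs h1 hf.incM, h.fs h2 hf.incQ]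
      have := hf.lt
      nlinarith
    · intro w hw
      simp only [List.mem_append, List.mem_cons] at hw
      rcases hw with hw | rfl | hw | rfl | hw
      · exact hP _ (by simp [hw])
      · exact hP _ (by simp)
      · exact hQ w hw
      · exact hP _ (by simp)
      · exact hP _ (by simp [hw])

lemma Shell.ctx {P P' : List V} {E : Set (V × V)} (hs : Shell x y P E P') (A B : List V) :
    Shell x y (A ++ P ++ B) E (A ++ P' ++ B) := by
  induction hs with
  | refl P => exact Shell.refl _
  | step A' B' a b M Q E P' hf _ ih =>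
    have e : ∀ N : List V, A ++ (A' ++ a :: (N ++ b :: B')) ++ B =
        (A ++ A') ++ a :: (N ++ b :: (B' ++ B)) := fun N => by simp
    rw [e] at ih ⊢
    exact Shell.step _ _ a b M Q E _ hf ih

lemma Shell.trans {P P' P'' : List V} {E E' : Set (V × V)} (hs : Shell x y P E P')
    (hs' : Shell x y P' E' P'') : Shell x y P (E ∪ E') P'' := by
  induction hs with
  | refl P => simpa using hs'
  | step A' B' a b M Q E P' hf _ ih =>
    rw [union_right_comm]
    exact Shell.step _ _ a b M Q _ _ hf (ih hs')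

lemma Face.shell {M Q : List V} (hf : Face x y a M Q b) :
    Shell x y (a :: (M ++ [b])) (edges (a :: (Q ++ [b]))) (a :: (Q ++ [b])) := by
  have := Shell.step [] [] a b M Q ∅ _ hf (Shell.refl _)
  simpa using this

lemma sl_lt_of_ln (h1 : x a < x b) (h2 : x b < x v) (h : ln x y a b (x v) < y v) :
    sl x y a b < sl x y b v ∧ sl x y a b < sl x y a v := by
  have e : y b = y a + sl x y a b * (x b - x a) := by
    have : x b - x a ≠ 0 := by linarith
    unfold sl; field_simp; ring
  unfold ln at h
  constructor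
  · show sl x y a b < (y v - y b) / (x v - x b)
    rw [lt_div_iff₀ (by linarith)]; linarith
  · show sl x y a b < (y v - y a) / (x v - x a)
    rw [lt_div_iff₀ (by linarith)]; linarith

/-- joining the vertices of `N` on a path to a vertex `v` that lies above all lines -/
lemma fan (N : Set V) (R : List V) : ∀ a, Inc x (a :: (R ++ [v])) →
    Tri (fun p q r => q ∉ N → sl x y p q ≤ sl x y q r) (a :: R) →
    (∀ e ∈ edges (a :: R), ln x y e.1 e.2 (x v) < y v) →
    ∃ M E, Shell x y (a :: (R ++ [v])) E (a :: (M ++ [v])) ∧ Inc x (a :: (M ++ [v])) ∧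
      Cvx x y (a :: (M ++ [v])) ∧ M.head? = R.head? ∧ (∀ e ∈ E, e.2 = v ∧ e.1 ∈ N ∧ e.1 ∈ R) ∧
      ∀ w ∈ R, w ∈ N → (w, v) ∈ E ∨ (w, v) ∈ edges (a :: (R ++ [v])) := by
  induction R with
  | nil => intro a h1 _ _; exact ⟨[], ∅, Shell.refl _, h1, by simp [Cvx], rfl, by simp, by simp⟩
  | cons b R ih =>
    intro a h1 h2 h3
    have hab : x a < x b := h1 (a, b) (by simp)
    have h1' : Inc x (b :: (R ++ [v])) := Inc.right (P := [a]) h1
    have hbv : x b < x v := Inc.lt (P := b :: R) (R := [v]) h1' (by simp) (by simp)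
    have h2' : Tri (fun p q r => q ∉ N → sl x y p q ≤ sl x y q r) (b :: R) :=
      (tri_split (P := [a]).1 h2).2.1
    obtain ⟨M, E, s1, i1, c1, hd, hE, hN⟩ := ih b h1' h2' fun e he => h3 e (Or.inr he)
    have s2 : Shell x y (a :: (b :: R ++ [v])) E (a :: (b :: M ++ [v])) := by
      simpa using s1.ctx [a] []
    have habv := (sl_lt_of_ln hab hbv (h3 (a, b) (by simp))).1
    by_cases hb : b ∈ N ∧ R ≠ []
    · obtain ⟨c, R, rfl⟩ := List.exists_cons_of_ne_nil hb.2
      have hbc : x b < x c := h1' (b, c) (by simp)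
      have hcv : x c < x v := Inc.lt (P := b :: c :: R) (R := [v]) h1' (by simp) (by simp)
      have hf : Face x y b M [] v := by
        refine ⟨i1, fun e he => by simp at he; rw [he]; exact hbv, c1, by simp [Ccv], ?_⟩
        rw [fs_head (b := c) (by cases M <;> simp_all)]
        exact (sl_lt_of_ln hbc hcv (h3 (b, c) (by simp))).2
      have s3 : Shell x y (a :: (b :: M ++ [v])) (edges [b, v]) (a :: ([b] ++ [v])) := by
        simpa using hf.shell.ctx [a] []
      refine ⟨[b], _, s2.trans s3, ?_, ?_, rfl, ?_, ?_⟩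
      · intro e he
        simp at he
        rcases he with rfl | rfl
        · exact hab
        · exact hbv
      · simp [Cvx]; exact habv.le
      · rintro e (he | he)
        · exact ⟨(hE e he).1, (hE e he).2.1, List.mem_cons_of_mem _ (hE e he).2.2⟩
        · simp at he; rw [he]; exact ⟨rfl, hb.1, by simp⟩
      · intro w hw hwN
        rcases List.mem_cons.1 hw with rfl | hw
        · left; right; simp
        · rcases hN w hw hwN with h | h
          · exact Or.inl (Or.inl h)
          · exact Or.inr (Or.inr h)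
    · refine ⟨b :: M, E, s2, ?_, ?_, rfl, ?_, ?_⟩
      · rintro e (rfl | he)
        · exact hab
        · exact i1 e he
      · refine (tri_split (P := [a]) (c := b) (T := M ++ [v])).2 ⟨by simp, c1, ?_⟩
        intro p q hp hq
        simp at hp; subst hp
        cases R with
        | nil =>
          have : M = [] := by cases M <;> simp_all
          subst this; simp at hq; subst hq; exact habv.le
        | cons c R =>
          have hq' : q = c := by cases M <;> simp_all
          subst hq'
          exact h2.1 fun h => hb ⟨h, by simp⟩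
      · intro e he
        exact ⟨(hE e he).1, (hE e he).2.1, List.mem_cons_of_mem _ (hE e he).2.2⟩
      · intro w hw hwN
        rcases List.mem_cons.1 hw with rfl | hw
        · have : R = [] := by by_contra h; exact hb ⟨hwN, h⟩
          subst this; right; simp
        · rcases hN w hw hwN with h | h
          · exact Or.inl h
          · exact Or.inr (Or.inr h)

lemma y_lt_of_sl_pos (h : x a < x b) (hs : 0 < sl x y a b) : y a < y b := by
  unfold sl at hs
  have := (div_pos_iff_of_pos_right (by linarith : 0 < x b - x a)).1 hs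
  linarith

lemma y_lt_of_sl_neg (h : x a < x b) (hs : sl x y a b < 0) : y b < y a := by
  unfold sl at hs
  rw [div_lt_iff₀ (by linarith)] at hs
  linarith

lemma rise (L : List V) : ∀ a, Inc x (a :: L) → Cvx x y (a :: L) → 0 < fs x y (a :: L) →
    ∀ w ∈ L, y a < y w := by
  induction L with
  | nil => simp
  | cons b L ih =>
    intro a h1 h2 h3 w hw
    have hab := y_lt_of_sl_pos (h1 (a, b) (by simp)) h3
    rcases List.mem_cons.1 hw with rfl | hw
    · exact hab
    · cases L with
      | nil => simp at hw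
      | cons c L =>
        exact hab.trans (ih b (Inc.right (P := [a]) h1) h2.2 (lt_of_lt_of_le h3 h2.1) w hw)

lemma descend (L : List V) (h1 : Inc x (L ++ [v])) (h2 : ∀ e ∈ edges (L ++ [v]), sl x y e.1 e.2 < 0) :
    ∀ w ∈ L, y v < y w := by
  induction L with
  | nil => simp
  | cons a L ih =>
    have ih' := ih (Inc.right (P := [a]) h1) fun e he => h2 e (edges_sub_append_right [a] _ he)
    intro w hw
    rcases List.mem_cons.1 hw with rfl | hw
    · cases L with
      | nil => exact y_lt_of_sl_neg (h1 (w, v) (by simp)) (h2 (w, v) (by simp))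
      | cons b L =>
        exact (ih' b (by simp)).trans (y_lt_of_sl_neg (h1 (w, b) (by simp)) (h2 (w, b) (by simp)))
    · exact ih' w hw

lemma small_lt {A B C : ℝ} (h : A < C) : ∀ᶠ η in 𝓝 (0 : ℝ), A + η * B < C := by
  have hc : Continuous fun η : ℝ => A + η * B := by fun_prop
  have := hc.tendsto 0
  simp only [zero_mul, add_zero] at this
  exact this.eventually (gt_mem_nhds h)

lemma exists_small {p : ℝ → Prop} (h : ∀ᶠ η in 𝓝 (0 : ℝ), p η) : ∃ η, 0 < η ∧ p η := by
  obtain ⟨η, h1, h2⟩ := ((h.filter_mono (nhdsWithin_le_nhds (s := Ioi 0))).and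
    self_mem_nhdsWithin).exists
  exact ⟨η, h2, h1⟩

end Pool.Agent.MP_250189_co
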