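import Mathlib

/-! Definitions used in the statement about greedy drawings with strictly convex faces. -/

namespace Pool.Agent.MP_250189_co.H72

open Set

variable {V : Type*}

/-- `G` can be drawn in the plane: distinct points for the vertices, a continuous curve for each
edge that passes through no other vertex, curves of different edges meeting only in common ends. -/
def Planar (G : SimpleGraph V) : Prop :=
  ∃ (q : V → EuclideanSpace ℝ (Fin 2)) (γ : ∀ a b : V, G.Adj a b → Path (q a) (q b)),
    Function.Injective q ∧
    (∀ (a b : V) (h : G.Adj a b) (w : V), q w ∈ range (γ a b h) → w = a ∨ w = b) ∧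
    ∀ (a b c d : V) (h : G.Adj a b) (h' : G.Adj c d), s(a, b) ≠ s(c, d) →
      range (γ a b h) ∩ range (γ c d h') ⊆ {q a, q b} ∩ {q c, q d}

/-- From each vertex to each other vertex there is a path along which the distance to the target
strictly decreases. -/
def Greedy (G : SimpleGraph V) (p : V → EuclideanSpace ℝ (Fin 2)) : Prop :=
  ∀ u v : V, u ≠ v → ∃ w : G.Walk u v, w.IsPath ∧
    ∀ d ∈ w.darts, dist (p d.snd) (p v) < dist (p d.fst) (p v)

/-- No vertex lies on the segment of an edge it is not an end of, and the segments of two different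
edges meet only in a common end. -/
def Noncrossing (G : SimpleGraph V) (p : V → EuclideanSpace ℝ (Fin 2)) : Prop :=
  (∀ a b w : V, G.Adj a b → w ≠ a → w ≠ b → p w ∉ segment ℝ (p a) (p b)) ∧
    ∀ a b c d : V, G.Adj a b → G.Adj c d → s(a, b) ≠ s(c, d) →
      segment ℝ (p a) (p b) ∩ segment ℝ (p c) (p d) ⊆ {p a, p b} ∩ {p c, p d}

/-- The point set of the straight-line drawing. -/
def Drawn (G : SimpleGraph V) (p : V → EuclideanSpace ℝ (Fin 2)) :
    Set (EuclideanSpace ℝ (Fin 2)) :=
  range p ∪ {z | ∃ a b : V, G.Adj a b ∧ z ∈ segment ℝ (p a) (p b)}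

/-- For each face there is a convex polygon `K` spanned by vertices, with nonempty interior and with
every vertex on its boundary a corner, such that the face is the interior of `K` if it is bounded
and the complement of `K` if it is unbounded. -/
def StrictlyConvexFaces (G : SimpleGraph V) (p : V → EuclideanSpace ℝ (Fin 2)) : Prop :=
  ∀ z ∉ Drawn G p, ∃ (S : Set V) (K : Set (EuclideanSpace ℝ (Fin 2))),
    K = convexHull ℝ (p '' S) ∧ (interior K).Nonempty ∧
    (∀ v : V, p v ∈ frontier K → p v ∈ K.extremePoints ℝ) ∧
    (Bornology.IsBounded (connectedComponentIn (Drawn G p)ᶜ z) →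
      connectedComponentIn (Drawn G p)ᶜ z = interior K) ∧
    (¬ Bornology.IsBounded (connectedComponentIn (Drawn G p)ᶜ z) →
      connectedComponentIn (Drawn G p)ᶜ z = Kᶜ)

end Pool.Agent.MP_250189_co.H72
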