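import Pool.Agent.MP_250189_co.Basic
import Pool.Agent.MP_250189_co.Geo

/-! The invariant of the recursion and the gluing of the abscissas. -/

namespace Pool.Agent.MP_250189_co

open Set Filter Topology

variable {V : Type*} {G G' : SimpleGraph V} {S X : Set V} {u v c : V} {x y x0 : V → ℝ}

structure Greedy (G : SimpleGraph V) (S : Set V) (u v : V) (x0 : V → ℝ) : Prop where
  inj : InjOn x0 S
  lo : ∀ a ∈ S, a ≠ u → x0 u < x0 a
  hi : ∀ a ∈ S, a ≠ v → x0 a < x0 v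
  g1 : ∀ a ∈ S, ∀ t ∈ S, a ≠ u → t ≠ u → a ≠ t →
    ∃ w, G.Adj a w ∧ w ≠ u ∧ |x0 w - x0 t| < |x0 a - x0 t|
  g2 : ∀ a ∈ S, a ≠ u → ∃ w, G.Adj a w ∧ x0 w < x0 a
  g3 : ∀ a ∈ S, a ≠ v → ∃ w, G.Adj a w ∧ x0 a < x0 w

structure Comb (G : SimpleGraph V) (X : Set V) (u v : V) (τ β : List V) (x0 : V → ℝ) : Prop where
  adjτ : ∀ e ∈ edges (u :: (τ ++ [v])), G.Adj e.1 e.2 ∧ x0 e.1 < x0 e.2
  adjβ : ∀ e ∈ edges (u :: (β ++ [v])), G.Adj e.1 e.2 ∧ x0 e.1 < x0 e.2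
  Xβ : ∀ w ∈ X, w ∈ u :: (β ++ [v])

structure GeoS (G : SimpleGraph V) (X : Set V) (u v : V) (τ β : List V) (x y : V → ℝ) : Prop where
  yu : y u = 0
  yv : y v = 0
  sh : ∃ E, Shell x y (u :: (τ ++ [v])) E (u :: (β ++ [v])) ∧ (∀ e ∈ E, G.Adj e.1 e.2) ∧
    ∀ a b, G.Adj a b → (a, b) ∈ E ∪ edges (u :: (τ ++ [v])) ∨ (b, a) ∈ E ∪ edges (u :: (τ ++ [v]))
  ccv : Ccv x y (u :: (τ ++ [v]))
  cvx : Tri (fun a b c => b ∉ X → sl x y a b ≤ sl x y b c) (u :: (β ++ [v]))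
  f0 : 0 ≤ fs x y (u :: (τ ++ [v]))
  f1 : fs x y (u :: (τ ++ [v])) ≤ fs x y (u :: (β ++ [v]))

def Desc (x y : V → ℝ) (T : ℝ) (L : List V) : Prop :=
  ∀ e ∈ edges L, sl x y e.1 e.2 < 0 ∧ ln x y e.1 e.2 T < 0

def Peak (X : Set V) (v : V) (β : List V) (x y : V → ℝ) (T : ℝ) : Prop :=
  ∃ β1 m β2, β = β1 ++ m :: β2 ∧ m ∈ X ∧ (∀ w ∈ β1, w ∉ X) ∧ Desc x y T (m :: (β2 ++ [v]))

def NT (S : Set V) (u v : V) : Prop := ∃ w ∈ S, w ≠ u ∧ w ≠ v

def Cons (G : SimpleGraph V) (x0 x : V → ℝ) : Prop := ∀ a b, G.Adj a b → x0 a < x0 b → x a < x b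

structure OutAt (G : SimpleGraph V) (S X : Set V) (u v : V) (τ β : List V) (x0 : V → ℝ)
    (K : (V → ℝ) → (V → ℝ) → Prop) : Prop where
  gr : Greedy G S u v x0
  cb : Comb G X u v τ β x0
  geo : ∀ x, Cons G x0 x → ∀ T, x v < T → ∃ y, GeoS G X u v τ β x y ∧
    (NT S u v → 0 < fs x y (u :: (β ++ [v])) ∧ Peak X v β x y T) ∧ K x y

def Out (G : SimpleGraph V) (S X : Set V) (u v : V) (τ : List V)
    (K : (V → ℝ) → (V → ℝ) → Prop) : Prop := ∃ β x0, OutAt G S X u v τ β x0 K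

def Flat (τ : List V) : (V → ℝ) → (V → ℝ) → Prop := fun _ y => ∀ w ∈ τ, y w = 0

def Arch (u v : V) (τ : List V) : (V → ℝ) → (V → ℝ) → Prop :=
  fun x y => 0 < fs x y (u :: (τ ++ [v]))

lemma Out.mono {τ : List V} {K K' : (V → ℝ) → (V → ℝ) → Prop} (h : Out G S X u v τ K)
    (hK : ∀ x y, K x y → K' x y) : Out G S X u v τ K' := by
  obtain ⟨β, x0, h⟩ := h
  refine ⟨β, x0, h.gr, h.cb, fun x hx T hT => ?_⟩
  obtain ⟨y, h1, h2, h3⟩ := h.geo x hx T hT
  exact ⟨y, h1, h2, hK x y h3⟩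

lemma Comb.incτ {τ β : List V} (h : Comb G X u v τ β x0) (hx : Cons G x0 x) :
    Inc x (u :: (τ ++ [v])) := fun e he => hx _ _ (h.adjτ e he).1 (h.adjτ e he).2

lemma Comb.incβ {τ β : List V} (h : Comb G X u v τ β x0) (hx : Cons G x0 x) :
    Inc x (u :: (β ++ [v])) := fun e he => hx _ _ (h.adjβ e he).1 (h.adjβ e he).2

lemma path_sub (hS : ∀ p q, G.Adj p q → p ∈ S) {L : List V}
    (h : ∀ e ∈ edges (u :: (L ++ [v])), G.Adj e.1 e.2) : ∀ w ∈ u :: (L ++ [v]), w ∈ S := by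
  intro w hw
  have e : u :: (L ++ [v]) = (u :: L) ++ [v] := rfl
  rw [e] at hw h
  rcases List.mem_append.1 hw with hw | hw
  · obtain ⟨d, hd⟩ := exists_edge_out hw v
    exact hS _ _ (h _ hd)
  · simp at hw; subst hw
    have := last_edge (P := u :: L) (c := w) (List.getLast?_eq_getLast_of_ne_nil (by simp))
    exact hS _ _ (h _ this).symm

lemma Inc.ne_ends {L : List V} (h : Inc x (u :: (L ++ [v]))) {w : V} (hw : w ∈ L) :
    x u < x w ∧ x w < x v :=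
  ⟨Inc.lt (P := [u]) h (by simp) (by simp [hw]), Inc.lt (P := u :: L) h (by simp [hw]) (by simp)⟩

lemma Inc.ends {L : List V} (h : Inc x (u :: (L ++ [v]))) : x u < x v :=
  Inc.lt (P := u :: L) h (by simp) (by simp)

lemma triv_nil {L : List V} (h : Inc x (u :: (L ++ [v]))) (hS : ∀ w ∈ u :: (L ++ [v]), w ∈ S)
    (hn : ¬ NT S u v) : L = [] := by
  cases L with
  | nil => rfl
  | cons w L =>
    have := h.ne_ends (w := w) (by simp)
    exact absurd ⟨w, hS w (by simp), fun e => by rw [e] at this; exact lt_irrefl _ this.1,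
      fun e => by rw [e] at this; exact lt_irrefl _ this.2⟩ hn

lemma peak_pos {τ β : List V} {T : ℝ} (hg : GeoS G X u v τ β x y) (hi : Inc x (u :: (β ++ [v])))
    (h0 : 0 < fs x y (u :: (β ++ [v]))) (hp : Peak X v β x y T) : ∀ w ∈ β, 0 < y w := by
  obtain ⟨β1, m, β2, rfl, -, h1, h2⟩ := hp
  have e : u :: (β1 ++ m :: β2 ++ [v]) = (u :: β1) ++ m :: (β2 ++ [v]) := by simp
  have hc := hg.cvx
  rw [e] at hi hc
  have hi' := inc_split.1 hi
  have hc' := (tri_split.1 hc).1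
  have r1 := rise (x := x) (y := y) (β1 ++ [m]) u hi'.1 (hc'.imp fun a b c h3 h4 h5 => h5 (h1 b (by
      obtain ⟨P, R, h6⟩ := edges_iff.1 h4
      have hb1 := (mem_of_edge h3).2
      have hlt1 := hi'.1 _ h3
      have hlt2 := hi'.1 _ h4
      have hcm := (mem_of_edge h4).2
      have ham := (mem_of_edge h3).1
      simp only [List.cons_append, List.mem_cons, List.mem_append, List.not_mem_nil, or_false]
        at hb1 hcm ham
      rcases hb1 with rfl | hb | rfl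
      · exfalso
        rcases ham with rfl | ha | rfl
        · exact lt_irrefl _ hlt1
        · exact lt_asymm hlt1 (Inc.ne_ends hi'.1 ha).1
        · exact lt_asymm hlt1 (Inc.ends hi'.1)
      · exact hb
      · exfalso
        rcases hcm with rfl | hc | rfl
        · exact lt_asymm hlt2 (Inc.ends hi'.1)
        · exact lt_asymm hlt2 (Inc.ne_ends hi'.1 hc).2
        · exact lt_irrefl _ hlt2)))
    (by rw [← fs_append β1 (β2 ++ [v])]; simpa using h0)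
  have r2 := descend (x := x) (y := y) (v := v) (m :: β2) hi'.2 fun e he => (h2 e he).1
  intro w hw
  rcases List.mem_append.1 hw with hw | hw
  · rw [← hg.yu]; exact r1 w (by simp [hw])
  · rw [← hg.yv]; exact r2 w hw

/-- the middle vertex of two consecutive edges is an inner vertex -/
lemma mid_mem {L : List V} (hi : Inc x (u :: (L ++ [v]))) {a b c : V}
    (h3 : (a, b) ∈ edges (u :: (L ++ [v]))) (h4 : (b, c) ∈ edges (u :: (L ++ [v]))) : b ∈ L := by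
  have hb1 := (mem_of_edge h3).2
  have hlt1 := hi _ h3
  have hlt2 := hi _ h4
  have hcm := (mem_of_edge h4).2
  have ham := (mem_of_edge h3).1
  simp only [List.mem_cons, List.mem_append, List.not_mem_nil, or_false] at hb1 hcm ham
  rcases hb1 with rfl | hb | rfl
  · exfalso
    rcases ham with rfl | ha | rfl
    · exact lt_irrefl _ hlt1
    · exact lt_asymm hlt1 (Inc.ne_ends hi ha).1
    · exact lt_asymm hlt1 (Inc.ends hi)
  · exact hb
  · exfalso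
    rcases hcm with rfl | hc | rfl
    · exact lt_asymm hlt2 (Inc.ends hi)
    · exact lt_asymm hlt2 (Inc.ne_ends hi hc).2
    · exact lt_irrefl _ hlt2

lemma Greedy.mono (h : Greedy G S u v x0) (hG : G ≤ G') : Greedy G' S u v x0 := by
  refine ⟨h.inj, h.lo, h.hi, fun a ha t ht h1 h2 h3 => ?_, fun a ha h1 => ?_, fun a ha h1 => ?_⟩
  · obtain ⟨w, k1, k2⟩ := h.g1 a ha t ht h1 h2 h3; exact ⟨w, hG k1, k2⟩
  · obtain ⟨w, k1, k2⟩ := h.g2 a ha h1; exact ⟨w, hG k1, k2⟩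
  · obtain ⟨w, k1, k2⟩ := h.g3 a ha h1; exact ⟨w, hG k1, k2⟩

lemma Greedy.le_lo (h : Greedy G S u v x0) {a : V} (ha : a ∈ S) : x0 u ≤ x0 a := by
  by_cases hau : a = u
  · rw [hau]
  · exact (h.lo a ha hau).le

lemma Greedy.le_hi (h : Greedy G S u v x0) {a : V} (ha : a ∈ S) : x0 a ≤ x0 v := by
  by_cases hau : a = v
  · rw [hau]
  · exact (h.hi a ha hau).le

lemma Greedy.full [Finite V] (h : Greedy G S u v x0) (hS : ∀ p q, G.Adj p q → p ∈ S)
    {a t : V} (ha : a ∈ S) (ht : t ∈ S) (hat : a ≠ t) :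
    ∃ w, G.Adj a w ∧ |x0 w - x0 t| < |x0 a - x0 t| := by
  by_cases hau : a = u
  · subst hau
    obtain ⟨c, hc, hmin⟩ := Set.exists_min_image (S \ {a}) x0 (Set.toFinite _) ⟨t, ht, hat.symm⟩
    obtain ⟨w, hw, hlt⟩ := h.g2 c hc.1 hc.2
    have hwa : w = a := by
      by_contra hne
      exact absurd (hmin w ⟨hS _ _ hw.symm, hne⟩) (not_le.2 hlt)
    subst hwa
    have h1 := hmin t ⟨ht, hat.symm⟩
    refine ⟨c, hw.symm, ?_⟩
    rw [abs_of_nonpos (by linarith), abs_of_nonpos (by linarith)]; linarith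
  · by_cases htu : t = u
    · subst htu
      obtain ⟨w, hw, hlt⟩ := h.g2 a ha hau
      have := h.le_lo (hS _ _ hw.symm)
      refine ⟨w, hw, ?_⟩
      rw [abs_of_nonneg (by linarith), abs_of_nonneg (by linarith)]; linarith
    · obtain ⟨w, k1, -, k2⟩ := h.g1 a ha t ht hau htu hat
      exact ⟨w, k1, k2⟩

lemma res_in {S : Set V} : ∀ p q, (res G S).Adj p q → p ∈ S := fun _ _ h => h.2.1

lemma res_le {S : Set V} : res G S ≤ G := fun _ _ h => h.1

lemma greedy_series [Finite V] {S1 S2 : Set V} {x1 x2 : V → ℝ} (hS : S = S1 ∪ S2)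
    (hI : ∀ a ∈ S1, a ∈ S2 → a = c) (hu : u ∈ S1) (hc1 : c ∈ S1) (hc2 : c ∈ S2) (hv : v ∈ S2)
    (huc : u ≠ c) (hcv : c ≠ v) (h1 : Greedy (res G S1) S1 u c x1)
    (h2 : Greedy (res G S2) S2 c v x2) :
    ∃ x0, Greedy G S u v x0 ∧ (∀ a ∈ S1, ∀ b ∈ S1, x1 a < x1 b → x0 a < x0 b) ∧
      ∀ a ∈ S2, ∀ b ∈ S2, x2 a < x2 b → x0 a < x0 b := by
  classical
  set x0 : V → ℝ := fun a => if a ∈ S1 then x1 a else x2 a + (x1 c - x2 c) with hx0
  have e1 : ∀ a ∈ S1, x0 a = x1 a := fun a ha => if_pos ha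
  have e2 : ∀ a ∈ S2, x0 a = x2 a + (x1 c - x2 c) := by
    intro a ha
    by_cases h : a ∈ S1
    · rw [e1 a h, hI a h ha]; ring
    · exact if_neg h
  have l1 : ∀ a ∈ S1, x0 a ≤ x1 c := fun a ha => by rw [e1 a ha]; exact h1.le_hi ha
  have l1' : ∀ a ∈ S1, a ≠ c → x0 a < x1 c := fun a ha h => by rw [e1 a ha]; exact h1.hi a ha h
  have l2 : ∀ a ∈ S2, x1 c ≤ x0 a := fun a ha => by rw [e2 a ha]; linarith [h2.le_lo ha]
  have l2' : ∀ a ∈ S2, a ≠ c → x1 c < x0 a := fun a ha h => by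
    rw [e2 a ha]; linarith [h2.lo a ha h]
  have huS2 : u ∉ S2 := fun h => huc (hI u hu h)
  subst hS
  refine ⟨x0, ⟨?_, ?_, ?_, ?_, ?_, ?_⟩, fun a ha b hb h => by rwa [e1 a ha, e1 b hb],
    fun a ha b hb h => by rw [e2 a ha, e2 b hb]; linarith⟩
  · have key : ∀ a ∈ S1, ∀ b ∈ S2, x0 a = x0 b → a = b := by
      intro a ha b hb h
      by_cases hac : a = c
      · by_contra hne
        have := l2' b hb (fun e => hne (hac.trans e.symm))
        linarith [l1 a ha]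
      · linarith [l1' a ha hac, l2 b hb]
    rintro a (ha | ha) b (hb | hb) h
    · exact h1.inj ha hb (by rwa [e1 a ha, e1 b hb] at h)
    · exact key a ha b hb h
    · exact (key b hb a ha h.symm).symm
    · exact h2.inj ha hb (by rw [e2 a ha, e2 b hb] at h; linarith)
  · rintro a (ha | ha) hau
    · rw [e1 a ha, e1 u hu]; exact h1.lo a ha hau
    · linarith [l1' u hu huc, l2 a ha]
  · rintro a (ha | ha) hav
    · linarith [l1 a ha, l2' v hv hcv.symm]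
    · rw [e2 a ha, e2 v hv]; linarith [h2.hi a ha hav]
  · intro a ha t ht hau htu hat
    by_cases k1 : a ∈ S1 ∧ t ∈ S1
    · obtain ⟨w, j1, j2, j3⟩ := h1.g1 a k1.1 t k1.2 hau htu hat
      exact ⟨w, j1.1, j2, by rwa [e1 w j1.2.2, e1 t k1.2, e1 a k1.1]⟩
    by_cases k2 : a ∈ S2 ∧ t ∈ S2
    · obtain ⟨w, j1, j3⟩ := h2.full res_in k2.1 k2.2 hat
      refine ⟨w, j1.1, fun e => huS2 (e ▸ j1.2.2), ?_⟩
      rw [e2 w j1.2.2, e2 t k2.2, e2 a k2.1]
      simpa using j3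
    rcases ha with ha | ha
    · have ht2 : t ∈ S2 := ht.resolve_left fun h => k1 ⟨ha, h⟩
      have hac : a ≠ c := fun e => k2 ⟨e ▸ hc2, ht2⟩
      obtain ⟨w, j1, j2⟩ := h1.g3 a ha hac
      have := l1 w j1.2.2
      have := l2 t ht2
      have := h1.le_lo ha
      refine ⟨w, j1.1, fun e => by rw [e] at j2; linarith, ?_⟩
      rw [← e1 w j1.2.2, ← e1 a ha] at j2
      rw [abs_of_nonpos (by linarith), abs_of_nonpos (by linarith)]; linarith
    · have ht1 : t ∈ S1 := ht.resolve_right fun h => k2 ⟨ha, h⟩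
      have hac : a ≠ c := fun e => k1 ⟨e ▸ hc1, ht1⟩
      obtain ⟨w, j1, j2⟩ := h2.g2 a ha hac
      have := l2 w j1.2.2
      have := l1 t ht1
      have : x0 w < x0 a := by rw [e2 w j1.2.2, e2 a ha]; linarith
      refine ⟨w, j1.1, fun e => huS2 (e ▸ j1.2.2), ?_⟩
      rw [abs_of_nonneg (by linarith), abs_of_nonneg (by linarith)]; linarith
  · intro a ha hau
    by_cases k : a ∈ S1
    · obtain ⟨w, j1, j2⟩ := h1.g2 a k hau
      exact ⟨w, j1.1, by rwa [e1 w j1.2.2, e1 a k]⟩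
    · have ha2 : a ∈ S2 := ha.resolve_left k
      obtain ⟨w, j1, j2⟩ := h2.g2 a ha2 (fun e => k (e ▸ hc1))
      exact ⟨w, j1.1, by rw [e2 w j1.2.2, e2 a ha2]; linarith⟩
  · intro a ha hav
    by_cases k : a ∈ S2
    · obtain ⟨w, j1, j2⟩ := h2.g3 a k hav
      exact ⟨w, j1.1, by rw [e2 w j1.2.2, e2 a k]; linarith⟩
    · have ha1 : a ∈ S1 := ha.resolve_right k
      obtain ⟨w, j1, j2⟩ := h1.g3 a ha1 (fun e => k (e ▸ hc2))
      exact ⟨w, j1.1, by rwa [e1 w j1.2.2, e1 a ha1]⟩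

lemma greedy_B {H B : Set V} {x1 x2 : V → ℝ} {y1 : V} (hS : S = H ∪ B)
    (hI : ∀ a ∈ H, a ∈ B → a = c) (hu : u ∈ H) (hc1 : c ∈ H) (hy1 : y1 ∈ H) (hc2 : c ∈ B)
    (hv : v ∈ B) (huc : u ≠ c) (hcv : c ≠ v) (hadj : G.Adj y1 v)
    (h1 : Greedy (res G H) H u y1 x1) (h2 : Greedy (res G B) B c v x2) :
    ∃ x0, Greedy G S u v x0 ∧ (∀ a ∈ H, ∀ b ∈ H, x1 a < x1 b → x0 a < x0 b) ∧
      ∀ a ∈ B, ∀ b ∈ B, x2 a < x2 b → x0 a < x0 b := by
  classical
  set s := x1 y1 + (x1 y1 - x1 u) + (x2 v - x2 c) + 1 - x2 c with hs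
  set x0 : V → ℝ := fun a => if a ∈ H then x1 a else x2 a + s with hx0
  have e1 : ∀ a ∈ H, x0 a = x1 a := fun a ha => if_pos ha
  have e2 : ∀ a ∈ B, a ≠ c → x0 a = x2 a + s := fun a ha hac => if_neg fun h => hac (hI a h ha)
  have d1 : 0 ≤ x1 y1 - x1 u := by linarith [h1.le_hi hu]
  have d2 : 0 ≤ x2 v - x2 c := by linarith [h2.le_hi hc2]
  have l1 : ∀ a ∈ H, x1 u ≤ x0 a ∧ x0 a ≤ x1 y1 := fun a ha => by
    rw [e1 a ha]; exact ⟨h1.le_lo ha, h1.le_hi ha⟩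
  have l2 : ∀ a ∈ B, a ≠ c → x2 c + s < x0 a ∧ x0 a ≤ x2 v + s := fun a ha hac => by
    rw [e2 a ha hac]; exact ⟨by linarith [h2.lo a ha hac], by linarith [h2.le_hi ha]⟩
  have huB : u ∉ B := fun h => huc (hI u hu h)
  have hB : ∀ a ∈ B, ∀ b ∈ B, x2 a < x2 b → x0 a < x0 b := by
    intro a ha b hb h
    have hbc : b ≠ c := fun e => by rw [e] at h; linarith [h2.le_lo ha]
    by_cases hac : a = c
    · subst hac; linarith [(l1 a hc1).2, (l2 b hb hbc).1]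
    · rw [e2 a ha hac, e2 b hb hbc]; linarith
  have cs : ∀ a ∈ S, a ∈ H ∨ (a ∈ B ∧ a ≠ c) := by
    intro a ha
    by_cases h : a ∈ H
    · exact Or.inl h
    · rw [hS] at ha; exact Or.inr ⟨ha.resolve_left h, fun e => h (e ▸ hc1)⟩
  refine ⟨x0, ⟨?_, ?_, ?_, ?_, ?_, ?_⟩, fun a ha b hb h => by rwa [e1 a ha, e1 b hb], hB⟩
  · intro a ha b hb h
    rcases cs a ha with ha | ha <;> rcases cs b hb with hb | hb
    · exact h1.inj ha hb (by rwa [e1 a ha, e1 b hb] at h)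
    · linarith [(l1 a ha).2, (l2 b hb.1 hb.2).1]
    · linarith [(l1 b hb).2, (l2 a ha.1 ha.2).1]
    · exact h2.inj ha.1 hb.1 (by rw [e2 a ha.1 ha.2, e2 b hb.1 hb.2] at h; linarith)
  · intro a ha hau
    rcases cs a ha with ha | ha
    · rw [e1 a ha, e1 u hu]; exact h1.lo a ha hau
    · linarith [(l1 u hu).2, (l2 a ha.1 ha.2).1]
  · intro a ha hav
    rcases cs a ha with ha | ha
    · linarith [(l1 a ha).2, (l2 v hv hcv.symm).1]
    · exact hB a ha.1 v hv (h2.hi a ha.1 hav)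
  · intro a ha t ht hau htu hat
    rcases cs a ha with ha | ha <;> rcases cs t ht with ht | ht
    · obtain ⟨w, j1, j2, j3⟩ := h1.g1 a ha t ht hau htu hat
      exact ⟨w, j1.1, j2, by rwa [e1 w j1.2.2, e1 t ht, e1 a ha]⟩
    · have t1 := l2 t ht.1 ht.2
      by_cases hay : a = y1
      · subst hay
        have t2 := l2 v hv hcv.symm
        have t3 := hB
        have t4 : x0 t ≤ x0 v := by rw [e2 v hv hcv.symm]; exact t1.2
        refine ⟨v, hadj, fun e => huB (e ▸ hv), ?_⟩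
        rw [abs_of_nonneg (by linarith), abs_of_nonpos (by linarith [(l1 a ha).2])]
        linarith [(l1 a ha).2]
      · obtain ⟨w, j1, j2⟩ := h1.g3 a ha hay
        have := h1.le_lo ha
        refine ⟨w, j1.1, fun e => by rw [e] at j2; linarith, ?_⟩
        rw [← e1 w j1.2.2, ← e1 a ha] at j2
        have := (l1 w j1.2.2).2
        rw [abs_of_nonpos (by linarith), abs_of_nonpos (by linarith)]; linarith
    · obtain ⟨w, j1, j2⟩ := h2.g2 a ha.1 ha.2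
      have t1 := l2 a ha.1 ha.2
      have t2 := l1 t ht
      refine ⟨w, j1.1, fun e => huB (e ▸ j1.2.2), ?_⟩
      by_cases hwc : w = c
      · subst hwc
        have t3 := l1 w hc1
        rw [abs_of_nonneg (a := x0 a - x0 t) (by linarith), abs_lt]
        constructor <;> linarith
      · have t3 := l2 w j1.2.2 hwc
        have t4 := hB w j1.2.2 a ha.1 j2
        rw [abs_of_nonneg (by linarith), abs_of_nonneg (by linarith)]; linarith
    · obtain ⟨w, j1, j2, j3⟩ := h2.g1 a ha.1 t ht.1 ha.2 ht.2 hat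
      refine ⟨w, j1.1, fun e => huB (e ▸ j1.2.2), ?_⟩
      rw [e2 w j1.2.2 j2, e2 t ht.1 ht.2, e2 a ha.1 ha.2]
      simpa using j3
  · intro a ha hau
    rcases cs a ha with ha | ha
    · obtain ⟨w, j1, j2⟩ := h1.g2 a ha hau
      exact ⟨w, j1.1, by rwa [e1 w j1.2.2, e1 a ha]⟩
    · obtain ⟨w, j1, j2⟩ := h2.g2 a ha.1 ha.2
      exact ⟨w, j1.1, hB w j1.2.2 a ha.1 j2⟩
  · intro a ha hav
    rcases cs a ha with ha | ha
    · by_cases hay : a = y1
      · subst hay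
        exact ⟨v, hadj, by linarith [(l1 a ha).2, (l2 v hv hcv.symm).1]⟩
      · obtain ⟨w, j1, j2⟩ := h1.g3 a ha hay
        exact ⟨w, j1.1, by rwa [e1 w j1.2.2, e1 a ha]⟩
    · obtain ⟨w, j1, j2⟩ := h2.g3 a ha.1 hav
      exact ⟨w, j1.1, hB a ha.1 w j1.2.2 j2⟩

end Pool.Agent.MP_250189_co
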